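import Mathlib

set_option autoImplicit false

/-!
# Cross forms of Kruskal–Katona used for Kleitman's union-free conjecture
-/

open Finset
open scoped FinsetFamily

namespace Pool.Agent.Helper92.Kle

/-- Cross Kruskal–Katona (Lovász form) on `Fin g`. -/
theorem kkx_fin {g s b T : ℕ} (𝒜 ℬ : Finset (Finset (Fin g)))
    (hA : ∀ A ∈ 𝒜, #A = s) (hB : ∀ B ∈ ℬ, #B = b)
    (hU : ∀ A ∈ 𝒜, ∀ B ∈ ℬ, A ∪ B ≠ univ)
    (h1 : g ≤ s + b) (hb : b ≤ g) (hs : s ≤ g - T)
    (hc : (g - T).choose s ≤ #𝒜) :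
    #ℬ + (g - T).choose (g - b) ≤ g.choose b := by
  have hAs : (𝒜 : Set (Finset (Fin g))).Sized s := fun A hA' => hA A hA'
  have hi : s + b - g ≤ s := by omega
  have kk := kruskal_katona_lovasz_form (i := s + b - g) hi hs (Nat.sub_le g T) hAs hc
  have e1 : s - (s + b - g) = g - b := by omega
  rw [e1] at kk
  set 𝒮 : Finset (Finset (Fin g)) := ∂^[s + b - g] 𝒜 with h𝒮
  have hS : ∀ Y ∈ 𝒮, #Y = g - b ∧ ∃ A ∈ 𝒜, Y ⊆ A := by
    intro Y hY
    rw [h𝒮, mem_shadow_iterate_iff_exists_sdiff] at hY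
    obtain ⟨A, hA', hYA, hcard⟩ := hY
    refine ⟨?_, A, hA', hYA⟩
    rw [card_sdiff_of_subset hYA, hA A hA'] at hcard
    have : #Y ≤ s := by rw [← hA A hA']; exact card_le_card hYA
    omega
  have hdisj : Disjoint ℬ (𝒮.image compl) := by
    rw [Finset.disjoint_left]
    intro B hB' hB2
    rw [mem_image] at hB2
    obtain ⟨Y, hY, rfl⟩ := hB2
    obtain ⟨_, A, hA', hYA⟩ := hS Y hY
    apply hU A hA' _ hB'
    rw [Finset.eq_univ_iff_forall]
    intro x
    by_cases hx : x ∈ A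
    · exact mem_union_left _ hx
    · refine mem_union_right _ ?_
      rw [mem_compl]
      exact fun h => hx (hYA h)
  have hcard : #(𝒮.image compl) = #𝒮 := card_image_of_injective _ compl_injective
  have hsub : ℬ ∪ 𝒮.image compl ⊆ powersetCard b (univ : Finset (Fin g)) := by
    intro B hB'
    rw [mem_powersetCard]
    refine ⟨subset_univ _, ?_⟩
    rcases mem_union.1 hB' with h | h
    · exact hB B h
    · rw [mem_image] at h
      obtain ⟨Y, hY, rfl⟩ := h
      rw [card_compl, (hS Y hY).1, Fintype.card_fin]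
      omega
  have := card_le_card hsub
  rw [card_union_of_disjoint hdisj, hcard, card_powersetCard, card_univ, Fintype.card_fin] at this
  omega

/-- Cross Kruskal–Katona (Lovász form) on an arbitrary finite ground set `X`. -/
theorem kkx {α : Type*} [DecidableEq α] (X : Finset α) {s b T : ℕ} (𝒜 ℬ : Finset (Finset α))
    (hA : ∀ A ∈ 𝒜, A ⊆ X ∧ #A = s) (hB : ∀ B ∈ ℬ, B ⊆ X ∧ #B = b)
    (hU : ∀ A ∈ 𝒜, ∀ B ∈ ℬ, A ∪ B ≠ X)
    (h1 : #X ≤ s + b) (hb : b ≤ #X) (hs : s ≤ #X - T)
    (hc : (#X - T).choose s ≤ #𝒜) :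
    #ℬ + (#X - T).choose (#X - b) ≤ (#X).choose b := by
  classical
  let f : Fin #X ↪ α := X.equivFin.symm.toEmbedding.trans (Function.Embedding.subtype _)
  have hf : (univ : Finset (Fin #X)).map f = X := by
    ext x
    simp only [f, mem_map, mem_univ, true_and, Function.Embedding.trans_apply,
      Equiv.coe_toEmbedding, Function.Embedding.subtype_apply]
    constructor
    · rintro ⟨i, rfl⟩
      exact (X.equivFin.symm i).2
    · intro hx
      exact ⟨X.equivFin ⟨x, hx⟩, by simp⟩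
  have key : ∀ (𝒞 : Finset (Finset α)), (∀ A ∈ 𝒞, A ⊆ X) →
      #(univ.filter (fun S : Finset (Fin #X) => S.map f ∈ 𝒞)) = #𝒞 := by
    intro 𝒞 h𝒞
    rw [← card_map ⟨fun S : Finset (Fin #X) => S.map f, Finset.map_injective f⟩]
    congr 1
    ext A
    simp only [mem_map, mem_filter, mem_univ, true_and, Function.Embedding.coeFn_mk]
    constructor
    · rintro ⟨S, hS, rfl⟩; exact hS
    · intro hA'
      have hAX := h𝒞 A hA'
      rw [← hf] at hAX
      obtain ⟨S, _, rfl⟩ := Finset.subset_map_iff.1 hAX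
      exact ⟨S, hA', rfl⟩
  have := kkx_fin (T := T) (univ.filter (fun S : Finset (Fin #X) => S.map f ∈ 𝒜))
    (univ.filter (fun S : Finset (Fin #X) => S.map f ∈ ℬ)) (s := s) (b := b)
    (by
      intro A hA'
      rw [mem_filter] at hA'
      rw [← card_map f]; exact (hA _ hA'.2).2)
    (by
      intro A hA'
      rw [mem_filter] at hA'
      rw [← card_map f]; exact (hB _ hA'.2).2)
    (by
      intro A hA' B hB' hAB
      rw [mem_filter] at hA' hB'
      apply hU _ hA'.2 _ hB'.2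
      rw [← Finset.map_union, hAB, hf])
    h1 hb hs (by rw [key 𝒜 (fun A h => (hA A h).1)]; exact hc)
  rwa [key ℬ (fun A h => (hB A h).1)] at this

/-- Erdős–Ko–Rado in complementary form: a family of `l`-subsets of `X`, no two of which have
union `X`, has at most `choose (#X - 1) l` members, if `#X ≤ 2 l` and `l ≤ #X`. -/
theorem ekr_union {α : Type*} [DecidableEq α] (X : Finset α) {l : ℕ} (𝒜 : Finset (Finset α))
    (hA : ∀ A ∈ 𝒜, A ⊆ X ∧ #A = l)
    (hU : ∀ A ∈ 𝒜, ∀ B ∈ 𝒜, A ∪ B ≠ X)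
    (h1 : #X ≤ 2 * l) (hl : l + 1 ≤ #X) :
    #𝒜 ≤ (#X - 1).choose l := by
  by_contra hcon
  push Not at hcon
  have := kkx X (T := 1) (s := l) (b := l) 𝒜 𝒜 hA hA hU (by omega) (by omega) (by omega) hcon.le
  obtain ⟨g, hg⟩ : ∃ g, #X = g + 1 := ⟨#X - 1, by omega⟩
  rw [hg] at this hcon
  simp only [Nat.add_sub_cancel] at this hcon
  -- choose (g+1) l = choose g (g+1-l) + choose g l
  have e : (g + 1).choose l = g.choose (g + 1 - l) + g.choose l := by
    rcases Nat.eq_zero_or_pos l with h | h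
    · omega
    · obtain ⟨l', rfl⟩ : ∃ l', l = l' + 1 := ⟨l - 1, by omega⟩
      rw [Nat.choose_succ_succ]
      congr 1
      rw [← Nat.choose_symm (show l' ≤ g by omega)]
      congr 1
      omega
  omega

end Pool.Agent.Helper92.Kle
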