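import Pool.Agent.Helper92.Kle.KKX

set_option autoImplicit false

/-!
# An intersecting family with small degrees is small
-/

open Finset

namespace Pool.Agent.Helper92.Kle

section Shift

variable {α : Type*} [DecidableEq α]

/-- The effect of the shift `j → i` on the member `E` of the family `𝒰`. -/
def shf (i j : α) (𝒰 : Finset (Finset α)) (E : Finset α) : Finset α :=
  if j ∈ E ∧ i ∉ E ∧ insert i (E.erase j) ∉ 𝒰 then insert i (E.erase j) else E

/-- `E` is movable. -/
def Mov (i j : α) (𝒰 : Finset (Finset α)) (E : Finset α) : Prop :=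
  j ∈ E ∧ i ∉ E ∧ insert i (E.erase j) ∉ 𝒰

theorem shf_of_mov {i j : α} {𝒰 : Finset (Finset α)} {E : Finset α} (h : Mov i j 𝒰 E) :
    shf i j 𝒰 E = insert i (E.erase j) := if_pos h

theorem shf_of_not_mov {i j : α} {𝒰 : Finset (Finset α)} {E : Finset α} (h : ¬ Mov i j 𝒰 E) :
    shf i j 𝒰 E = E := if_neg h

theorem insert_erase_injective_aux {i j : α} {E F : Finset α} (hij : i ≠ j)
    (hE : j ∈ E) (hE' : i ∉ E) (hF : j ∈ F) (hF' : i ∉ F)
    (h : insert i (E.erase j) = insert i (F.erase j)) : E = F := by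
  ext x
  by_cases hxj : x = j
  · subst hxj; simp [hE, hF]
  by_cases hxi : x = i
  · subst hxi; simp [hE', hF']
  have := congrArg (fun S => x ∈ S) h
  simp only [mem_insert, hxi, mem_erase, ne_eq, hxj, not_false_eq_true, true_and, false_or,
    eq_iff_iff] at this
  exact this

theorem shf_injOn {i j : α} (hij : i ≠ j) (𝒰 : Finset (Finset α)) :
    Set.InjOn (shf i j 𝒰) (𝒰 : Set (Finset α)) := by
  intro E hE F hF h
  by_cases hEm : Mov i j 𝒰 E <;> by_cases hFm : Mov i j 𝒰 F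
  · rw [shf_of_mov hEm, shf_of_mov hFm] at h
    exact insert_erase_injective_aux hij hEm.1 hEm.2.1 hFm.1 hFm.2.1 h
  · rw [shf_of_mov hEm, shf_of_not_mov hFm] at h
    exact absurd (h ▸ hF : insert i (E.erase j) ∈ (𝒰 : Set (Finset α))) hEm.2.2
  · rw [shf_of_not_mov hEm, shf_of_mov hFm] at h
    exact absurd (h ▸ hE : insert i (F.erase j) ∈ (𝒰 : Set (Finset α))) hFm.2.2
  · rwa [shf_of_not_mov hEm, shf_of_not_mov hFm] at h

theorem card_insert_erase' {i j : α} {E : Finset α} (hj : j ∈ E) (hi : i ∉ E) :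
    #(insert i (E.erase j)) = #E := by
  rw [card_insert_of_notMem (fun h => hi (mem_of_mem_erase h)), card_erase_of_mem hj]
  have : 0 < #E := card_pos.2 ⟨j, hj⟩
  omega

theorem card_shf (i j : α) (𝒰 : Finset (Finset α)) (E : Finset α) :
    #(shf i j 𝒰 E) = #E := by
  by_cases hEm : Mov i j 𝒰 E
  · rw [shf_of_mov hEm, card_insert_erase' hEm.1 hEm.2.1]
  · rw [shf_of_not_mov hEm]

theorem shf_intersecting {i j : α} (hij : i ≠ j) (𝒰 : Finset (Finset α))
    (hint : ∀ E ∈ 𝒰, ∀ F ∈ 𝒰, ∃ x, x ∈ E ∧ x ∈ F) :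
    ∀ E ∈ 𝒰.image (shf i j 𝒰), ∀ F ∈ 𝒰.image (shf i j 𝒰), ∃ x, x ∈ E ∧ x ∈ F := by
  -- mixed case
  have mixed : ∀ E ∈ 𝒰, ∀ F ∈ 𝒰, Mov i j 𝒰 E → ¬ Mov i j 𝒰 F →
      ∃ x, x ∈ insert i (E.erase j) ∧ x ∈ F := by
    intro E hE F hF hEm hFm
    by_contra hcon
    push Not at hcon
    have hiF : i ∉ F := hcon i (mem_insert_self _ _)
    have h1 : ∀ y ∈ E, y ∈ F → y = j := by
      intro y hy hyF
      by_contra hyj
      exact hcon y (mem_insert_of_mem (mem_erase.2 ⟨hyj, hy⟩)) hyF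
    obtain ⟨y, hyE, hyF⟩ := hint E hE F hF
    have hyj := h1 y hyE hyF
    subst hyj
    have h2 : insert i (F.erase y) ∈ 𝒰 := by
      by_contra h3
      exact hFm ⟨hyF, hiF, h3⟩
    obtain ⟨z, hzE, hz⟩ := hint E hE _ h2
    rcases mem_insert.1 hz with h | h
    · subst h; exact hEm.2.1 hzE
    · have := h1 z hzE (mem_of_mem_erase h)
      exact (mem_erase.1 h).1 this
  intro E' hE' F' hF'
  obtain ⟨E, hE, rfl⟩ := mem_image.1 hE'
  obtain ⟨F, hF, rfl⟩ := mem_image.1 hF'
  by_cases hEm : Mov i j 𝒰 E <;> by_cases hFm : Mov i j 𝒰 F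
  · rw [shf_of_mov hEm, shf_of_mov hFm]
    exact ⟨i, mem_insert_self _ _, mem_insert_self _ _⟩
  · rw [shf_of_mov hEm, shf_of_not_mov hFm]
    exact mixed E hE F hF hEm hFm
  · rw [shf_of_not_mov hEm, shf_of_mov hFm]
    obtain ⟨x, h1, h2⟩ := mixed F hF E hE hFm hEm
    exact ⟨x, h2, h1⟩
  · rw [shf_of_not_mov hEm, shf_of_not_mov hFm]
    exact hint E hE F hF

/-- Degree of `x` in the family. -/
def deg (𝒰 : Finset (Finset α)) (x : α) : ℕ := #(𝒰.filter (fun E => x ∈ E))

theorem deg_shf_eq (i j : α) (hij : i ≠ j) (𝒰 : Finset (Finset α)) (x : α) :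
    deg (𝒰.image (shf i j 𝒰)) x = #(𝒰.filter (fun E => x ∈ shf i j 𝒰 E)) := by
  unfold deg
  rw [filter_image, card_image_of_injOn]
  exact (shf_injOn hij 𝒰).mono (by
    intro E hE
    simp only [coe_filter, Set.mem_ofPred_eq] at hE
    exact hE.1)

theorem deg_shf_le_of_ne {i j : α} (hij : i ≠ j) (𝒰 : Finset (Finset α)) {x : α} (hx : x ≠ i) :
    deg (𝒰.image (shf i j 𝒰)) x ≤ deg 𝒰 x := by
  rw [deg_shf_eq i j hij]
  unfold deg
  apply card_le_card
  intro E hE
  rw [mem_filter] at hE ⊢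
  refine ⟨hE.1, ?_⟩
  by_cases hEm : Mov i j 𝒰 E
  · rw [shf_of_mov hEm] at hE
    rcases mem_insert.1 hE.2 with h | h
    · exact absurd h hx
    · exact mem_of_mem_erase h
  · rw [shf_of_not_mov hEm] at hE
    exact hE.2

theorem deg_shf_self_le {i j : α} (hij : i ≠ j) (𝒰 : Finset (Finset α)) :
    deg (𝒰.image (shf i j 𝒰)) i ≤ deg 𝒰 i + deg 𝒰 j := by
  rw [deg_shf_eq i j hij]
  unfold deg
  refine le_trans (card_le_card ?_) (card_union_le _ _)
  intro E hE
  rw [mem_filter] at hE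
  rw [mem_union, mem_filter, mem_filter]
  by_cases hEm : Mov i j 𝒰 E
  · exact Or.inr ⟨hE.1, hEm.1⟩
  · rw [shf_of_not_mov hEm] at hE
    exact Or.inl hE

end Shift

section Frankl

variable {g : ℕ}

/-- The family is closed under all left shifts. -/
def Shifted (𝒰 : Finset (Finset (Fin g))) : Prop :=
  ∀ E ∈ 𝒰, ∀ i j : Fin g, i < j → j ∈ E → i ∉ E → insert i (E.erase j) ∈ 𝒰

theorem shifted_multi {𝒰 : Finset (Finset (Fin g))} (hs : Shifted 𝒰) {E : Finset (Fin g)}
    (hE : E ∈ 𝒰) (φ : Fin g → Fin g) (hφ : Set.InjOn φ (E : Set (Fin g)))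
    (hlt : ∀ e ∈ E, φ e < e) (hnot : ∀ e ∈ E, φ e ∉ E) :
    ∀ S : Finset (Fin g), S ⊆ E → (E \ S) ∪ S.image φ ∈ 𝒰 := by
  intro S
  induction S using Finset.induction_on with
  | empty => intro _; simpa using hE
  | insert e S heS ih =>
    intro hSE
    have hSE' : S ⊆ E := (subset_insert _ _).trans hSE
    have heE : e ∈ E := hSE (mem_insert_self _ _)
    have h1 := ih hSE'
    have h2 : e ∈ (E \ S) ∪ S.image φ := mem_union_left _ (mem_sdiff.2 ⟨heE, heS⟩)
    have h3 : φ e ∉ (E \ S) ∪ S.image φ := by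
      rw [mem_union, not_or]
      refine ⟨fun h => hnot e heE (mem_sdiff.1 h).1, ?_⟩
      intro h
      obtain ⟨e', he', h4⟩ := mem_image.1 h
      have := hφ (hSE' he') heE h4
      subst this
      exact heS he'
    have h4 := hs _ h1 (φ e) e (hlt e heE) h2 h3
    convert h4 using 1
    ext x
    simp only [mem_union, mem_sdiff, mem_insert, mem_image, mem_erase]
    constructor
    · rintro (⟨hx, hx2⟩ | ⟨y, hy, rfl⟩)
      · push Not at hx2
        exact Or.inr ⟨hx2.1, Or.inl ⟨hx, hx2.2⟩⟩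
      · rcases hy with rfl | hy
        · exact Or.inl rfl
        · refine Or.inr ⟨?_, Or.inr ⟨y, hy, rfl⟩⟩
          intro h
          exact hnot y (hSE' hy) (h ▸ heE)
    · rintro (rfl | ⟨hx1, (⟨hx2, hx3⟩ | ⟨y, hy, rfl⟩)⟩)
      · exact Or.inr ⟨e, Or.inl rfl, rfl⟩
      · refine Or.inl ⟨hx2, ?_⟩
        push Not
        exact ⟨hx1, hx3⟩
      · exact Or.inr ⟨y, Or.inr hy, rfl⟩

/-- Frankl's lemma for shifted intersecting families. -/
theorem frankl {𝒰 : Finset (Finset (Fin g))} (hs : Shifted 𝒰)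
    (hint : ∀ E ∈ 𝒰, ∀ F ∈ 𝒰, ∃ x, x ∈ E ∧ x ∈ F) {E : Finset (Fin g)} (hE : E ∈ 𝒰) :
    ∃ i : ℕ, 1 ≤ i ∧ i ≤ #(E.filter (fun e : Fin g => (e : ℕ) < 2 * i - 1)) := by
  by_contra hcon
  push Not at hcon
  -- Hall
  have hall : ∀ s : Finset {e // e ∈ E},
      #s ≤ #(s.biUnion (fun e => univ.filter (fun x : Fin g => x ∉ E ∧ x < e.1))) := by
    intro s
    rcases s.eq_empty_or_nonempty with rfl | hne
    · simp
    obtain ⟨M, hMs, hM⟩ := s.exists_max_image (fun e => e.1) hne
    have hsub : univ.filter (fun x : Fin g => x ∉ E ∧ x < M.1) ⊆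
        s.biUnion (fun e => univ.filter (fun x : Fin g => x ∉ E ∧ x < e.1)) := by
      intro x hx
      exact mem_biUnion.2 ⟨M, hMs, hx⟩
    refine le_trans ?_ (card_le_card hsub)
    -- #s ≤ # of E up to M
    set L := E.filter (fun e => e ≤ M.1) with hL
    have h1 : #s ≤ #L := by
      rw [← card_map (Function.Embedding.subtype _)]
      apply card_le_card
      intro x hx
      obtain ⟨e, he, rfl⟩ := mem_map.1 hx
      exact mem_filter.2 ⟨e.2, hM e he⟩
    have h2 : 1 ≤ #L := card_pos.2 ⟨M.1, mem_filter.2 ⟨M.2, le_refl _⟩⟩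
    -- M ≥ 2 #L - 1 (0-indexed)
    have h3 : 2 * #L - 1 ≤ (M.1 : ℕ) := by
      by_contra h
      push Not at h
      have := hcon (#L) h2
      apply absurd this
      push Not
      apply card_le_card
      intro e he
      rw [hL, mem_filter] at he
      rw [mem_filter]
      refine ⟨he.1, lt_of_le_of_lt ?_ h⟩
      exact_mod_cast he.2
    -- count of complement below M
    have h4 : #(univ.filter (fun x : Fin g => x ∉ E ∧ x < M.1)) + #(E.filter (fun e => e < M.1))
        = (M.1 : ℕ) := by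
      rw [← card_union_of_disjoint]
      · have : univ.filter (fun x : Fin g => x ∉ E ∧ x < M.1) ∪ E.filter (fun e => e < M.1)
            = Finset.Iio M.1 := by
          ext x
          simp only [mem_union, mem_filter, mem_univ, true_and, mem_Iio]
          tauto
        rw [this, Fin.card_Iio]
      · rw [Finset.disjoint_left]
        intro x hx hx2
        rw [mem_filter] at hx hx2
        exact hx.2.1 hx2.1
    have h5 : #L = #(E.filter (fun e => e < M.1)) + 1 := by
      have : L = insert M.1 (E.filter (fun e => e < M.1)) := by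
        ext x
        rw [hL]
        simp only [mem_filter, mem_insert]
        constructor
        · rintro ⟨hx, hx2⟩
          rcases eq_or_lt_of_le hx2 with h | h
          · exact Or.inl h
          · exact Or.inr ⟨hx, h⟩
        · rintro (rfl | ⟨hx, hx2⟩)
          · exact ⟨M.2, le_refl _⟩
          · exact ⟨hx, hx2.le⟩
      rw [this, card_insert_of_notMem]
      simp
    omega
  obtain ⟨f, hf, hf2⟩ := (Finset.all_card_le_biUnion_card_iff_existsInjective' _).1 hall
  have hf3 : ∀ e : {e // e ∈ E}, f e ∉ E ∧ f e < e.1 := by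
    intro e
    have := hf2 e
    rw [mem_filter] at this
    exact this.2
  classical
  let φ : Fin g → Fin g := fun e => if h : e ∈ E then f ⟨e, h⟩ else e
  have hφ : ∀ e (h : e ∈ E), φ e = f ⟨e, h⟩ := fun e h => dif_pos h
  have h1 := shifted_multi hs hE φ (by
      intro a ha b hb hab
      rw [hφ a ha, hφ b hb] at hab
      have := hf hab
      simpa using this)
    (by intro e he; rw [hφ e he]; exact (hf3 ⟨e, he⟩).2)
    (by intro e he; rw [hφ e he]; exact (hf3 ⟨e, he⟩).1) E (Subset.refl _)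
  obtain ⟨x, hx1, hx2⟩ := hint E hE _ h1
  rw [sdiff_self, mem_union] at hx2
  rcases hx2 with h | h
  · simp at h
  · obtain ⟨e, he, rfl⟩ := mem_image.1 h
    rw [hφ e he] at hx1
    exact (hf3 ⟨e, he⟩).1 hx1

end Frankl

section Count

/-- `choose (g-i) (m-i) ≤ (m/g)^i choose g m`. -/
theorem choose_sub_sub_le {g m : ℕ} (hg : 0 < g) (hmg : m ≤ g) :
    ∀ i : ℕ, i ≤ m → ((g - i).choose (m - i) : ℝ) ≤ ((m : ℝ) / g) ^ i * (g.choose m : ℝ) := by
  intro i
  induction i with
  | zero => intro _; simp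
  | succ i ih =>
    intro hi
    have h1 := ih (by omega)
    have e : (g - i) * (g - (i + 1)).choose (m - (i + 1)) = (g - i).choose (m - i) * (m - i) := by
      obtain ⟨g', hg'⟩ : ∃ g', g - i = g' + 1 := ⟨g - i - 1, by omega⟩
      obtain ⟨m', hm'⟩ : ∃ m', m - i = m' + 1 := ⟨m - i - 1, by omega⟩
      have e1 : g - (i + 1) = g' := by omega
      have e2 : m - (i + 1) = m' := by omega
      rw [e1, e2, hg', hm']
      exact Nat.add_one_mul_choose_eq g' m'
    have e' : ((g : ℝ) - i) * ((g - (i + 1)).choose (m - (i + 1)) : ℝ)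
        = ((g - i).choose (m - i) : ℝ) * ((m : ℝ) - i) := by
      have := congrArg (Nat.cast : ℕ → ℝ) e
      push_cast [Nat.cast_sub (show i ≤ g by omega), Nat.cast_sub (show i ≤ m by omega)] at this
      exact this
    have hgi : (0 : ℝ) < (g : ℝ) - i := by
      have : (i : ℝ) < g := by exact_mod_cast (show i < g by omega)
      linarith
    have hg0 : (0 : ℝ) < g := by exact_mod_cast hg
    have h2 : ((m : ℝ) - i) / ((g : ℝ) - i) ≤ (m : ℝ) / g := by
      rw [div_le_div_iff₀ hgi hg0]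
      have : (m : ℝ) ≤ g := by exact_mod_cast hmg
      have h0 : (0 : ℝ) ≤ i := Nat.cast_nonneg _
      nlinarith
    have h3 : ((g - (i + 1)).choose (m - (i + 1)) : ℝ)
        = ((m : ℝ) - i) / ((g : ℝ) - i) * ((g - i).choose (m - i) : ℝ) := by
      field_simp
      linarith
    rw [h3, pow_succ']
    have hmi : (0 : ℝ) ≤ (m : ℝ) - i := by
      have : (i : ℝ) ≤ m := by exact_mod_cast (show i ≤ m by omega)
      linarith
    calc ((m : ℝ) - i) / ((g : ℝ) - i) * ((g - i).choose (m - i) : ℝ)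
        ≤ (m : ℝ) / g * (((m : ℝ) / g) ^ i * (g.choose m : ℝ)) := by
          apply mul_le_mul h2 h1 (Nat.cast_nonneg _)
          positivity
      _ = _ := by ring

/-- Number of `m`-sets containing a given set. -/
theorem card_filter_superset {g m : ℕ} (T : Finset (Fin g)) (hT : #T ≤ m) :
    #((powersetCard m (univ : Finset (Fin g))).filter (fun E => T ⊆ E))
      = (g - #T).choose (m - #T) := by
  have h : (powersetCard m (univ : Finset (Fin g))).filter (fun E => T ⊆ E)
      = (powersetCard (m - #T) (univ \ T : Finset (Fin g))).image (fun S => S ∪ T) := by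
    ext E
    simp only [mem_filter, mem_powersetCard, subset_univ, true_and, mem_image]
    constructor
    · rintro ⟨hE, hTE⟩
      refine ⟨E \ T, ⟨?_, ?_⟩, ?_⟩
      · exact sdiff_subset_sdiff (subset_univ _) (Subset.refl _)
      · rw [card_sdiff_of_subset hTE, hE]
      · exact sdiff_union_of_subset hTE
    · rintro ⟨S, ⟨hS, hS2⟩, rfl⟩
      have hd : Disjoint S T := by
        rw [Finset.disjoint_left]
        intro x hx hx2
        exact (mem_sdiff.1 (hS hx)).2 hx2
      refine ⟨?_, subset_union_right⟩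
      rw [card_union_of_disjoint hd, hS2]
      omega
  rw [h, card_image_of_injOn, card_powersetCard, card_sdiff_of_subset (subset_univ _), card_univ,
    Fintype.card_fin]
  intro S hS S' hS' hSS
  rw [mem_coe, mem_powersetCard] at hS hS'
  have hd : Disjoint S T := by
    rw [Finset.disjoint_left]
    intro x hx hx2
    exact (mem_sdiff.1 (hS.1 hx)).2 hx2
  have hd' : Disjoint S' T := by
    rw [Finset.disjoint_left]
    intro x hx hx2
    exact (mem_sdiff.1 (hS'.1 hx)).2 hx2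
  simp only at hSS
  rw [← union_sdiff_cancel_right hd, hSS, union_sdiff_cancel_right hd']

end Count

/-- The shifted case. -/
theorem shifted_bound {g m : ℕ} (hg : 100 * m ≤ g) (hm : 1 ≤ m)
    (𝒰 : Finset (Finset (Fin g))) (hsz : ∀ E ∈ 𝒰, #E = m)
    (hint : ∀ E ∈ 𝒰, ∀ F ∈ 𝒰, ∃ x, x ∈ E ∧ x ∈ F) (hs : Shifted 𝒰) (z : Fin g)
    (hz : (z : ℕ) = 0) :
    (#(𝒰.filter (fun E => z ∉ E)) : ℝ) ≤ 17 * ((m : ℝ) / g) ^ 2 * (g.choose m : ℝ) := by
  have hg0 : 0 < g := by omega
  -- for each i, the sets with many small elements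
  let W : ℕ → Finset (Finset (Fin g)) := fun i =>
    ((powersetCard i (univ.filter (fun e : Fin g => (e : ℕ) < 2 * i - 1))).biUnion
      (fun T => (powersetCard m (univ : Finset (Fin g))).filter (fun E => T ⊆ E)))
  have hsub : 𝒰.filter (fun E => z ∉ E) ⊆ (Finset.Icc 2 m).biUnion W := by
    intro E hE
    rw [mem_filter] at hE
    obtain ⟨i, hi1, hi2⟩ := frankl hs hint hE.1
    have him : i ≤ m := by
      rw [← hsz E hE.1]
      exact hi2.trans (card_le_card (filter_subset _ _))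
    have hi3 : 2 ≤ i := by
      by_contra h
      have : i = 1 := by omega
      subst this
      obtain ⟨e, he⟩ := card_pos.1 (Nat.lt_of_lt_of_le Nat.zero_lt_one hi2)
      rw [mem_filter] at he
      have : e = z := by
        apply Fin.ext
        rw [hz]
        omega
      exact hE.2 (this ▸ he.1)
    obtain ⟨T, hT, hT2⟩ := exists_subset_card_eq hi2
    rw [mem_biUnion]
    refine ⟨i, mem_Icc.2 ⟨hi3, him⟩, ?_⟩
    rw [mem_biUnion]
    refine ⟨T, ?_, ?_⟩
    · rw [mem_powersetCard]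
      refine ⟨?_, hT2⟩
      intro x hx
      exact mem_filter.2 ⟨mem_univ _, (mem_filter.1 (hT hx)).2⟩
    · rw [mem_filter, mem_powersetCard]
      exact ⟨⟨subset_univ _, hsz E hE.1⟩, fun x hx => (mem_filter.1 (hT hx)).1⟩
  have hW : ∀ i ∈ Finset.Icc 2 m, (#(W i) : ℝ) ≤ (4 * ((m : ℝ) / g)) ^ i * (g.choose m : ℝ) := by
    intro i hi
    rw [mem_Icc] at hi
    have h1 : #(W i) ≤ (2 * i - 1).choose i * ((g - i).choose (m - i)) := by
      refine le_trans card_biUnion_le ?_
      rw [Finset.sum_congr rfl (g := fun _ => (g - i).choose (m - i))]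
      · rw [sum_const, card_powersetCard, smul_eq_mul]
        apply Nat.mul_le_mul_right
        apply Nat.choose_le_choose
        have : (univ.filter (fun e : Fin g => (e : ℕ) < 2 * i - 1)).map Fin.valEmbedding ⊆
            range (2 * i - 1) := by
          intro x hx
          obtain ⟨e, he, rfl⟩ := mem_map.1 hx
          rw [mem_range]
          exact (mem_filter.1 he).2
        have h := card_le_card this
        rwa [card_map, card_range] at h
      · intro T hT
        rw [mem_powersetCard] at hT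
        rw [card_filter_superset T (by rw [hT.2]; exact hi.2), hT.2]
    have h2 : (2 * i - 1).choose i ≤ 4 ^ i := by
      calc (2 * i - 1).choose i ≤ 2 ^ (2 * i - 1) := Nat.choose_le_two_pow _ _
        _ ≤ 2 ^ (2 * i) := Nat.pow_le_pow_right (by norm_num) (by omega)
        _ = 4 ^ i := by rw [pow_mul]; norm_num
    calc (#(W i) : ℝ) ≤ (((2 * i - 1).choose i * ((g - i).choose (m - i)) : ℕ) : ℝ) := by
          exact_mod_cast h1
      _ = ((2 * i - 1).choose i : ℝ) * ((g - i).choose (m - i) : ℝ) := by push_cast; ring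
      _ ≤ (4 : ℝ) ^ i * (((m : ℝ) / g) ^ i * (g.choose m : ℝ)) := by
          apply mul_le_mul
          · exact_mod_cast h2
          · exact choose_sub_sub_le hg0 (by omega) i hi.2
          · exact Nat.cast_nonneg _
          · positivity
      _ = _ := by rw [mul_pow]; ring
  have hx : 4 * ((m : ℝ) / g) ≤ 1 / 25 := by
    have hg0' : (0 : ℝ) < g := by exact_mod_cast hg0
    have : (100 * m : ℝ) ≤ g := by exact_mod_cast hg
    have h : (m : ℝ) / g ≤ 1 / 100 := by
      rw [div_le_div_iff₀ hg0' (by norm_num)]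
      linarith
    linarith
  set x : ℝ := 4 * ((m : ℝ) / g) with hxdef
  have hx0 : 0 ≤ x := by positivity
  have hgeo : ∀ M : ℕ, ∑ i ∈ Finset.Icc 2 M, x ^ i ≤ x ^ 2 * (25 / 24) := by
    intro M
    have key : ∀ K : ℕ, ∑ i ∈ Finset.range K, x ^ (i + 2) ≤ x ^ 2 * (25 / 24) - x ^ (K + 2) * (25 / 24) := by
      intro K
      induction K with
      | zero => simp
      | succ K ih =>
        rw [sum_range_succ]
        have h1 : x ^ (K + 1 + 2) = x ^ (K + 2) * x := by ring
        have h2 : 0 ≤ x ^ (K + 2) := by positivity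
        rw [h1]
        nlinarith
    rcases Nat.lt_or_ge M 2 with h | h
    · rw [Finset.Icc_eq_empty (by omega)]
      simp; positivity
    · have e : Finset.Icc 2 M = (Finset.range (M - 1)).image (fun i => i + 2) := by
        ext j
        simp only [mem_Icc, mem_image, mem_range]
        constructor
        · intro hj; exact ⟨j - 2, by omega, by omega⟩
        · rintro ⟨a, ha, rfl⟩; omega
      rw [e, sum_image (by intro a _ b _ hab; simpa using hab)]
      refine (key (M - 1)).trans ?_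
      have : 0 ≤ x ^ (M - 1 + 2) * (25 / 24) := by positivity
      linarith
  calc (#(𝒰.filter (fun E => z ∉ E)) : ℝ) ≤ (#((Finset.Icc 2 m).biUnion W) : ℝ) := by
        exact_mod_cast card_le_card hsub
    _ ≤ ((∑ i ∈ Finset.Icc 2 m, #(W i) : ℕ) : ℝ) := by exact_mod_cast card_biUnion_le
    _ = ∑ i ∈ Finset.Icc 2 m, (#(W i) : ℝ) := by push_cast; rfl
    _ ≤ ∑ i ∈ Finset.Icc 2 m, x ^ i * (g.choose m : ℝ) := sum_le_sum hW
    _ = (∑ i ∈ Finset.Icc 2 m, x ^ i) * (g.choose m : ℝ) := by rw [sum_mul]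
    _ ≤ (x ^ 2 * (25 / 24)) * (g.choose m : ℝ) := by
        apply mul_le_mul_of_nonneg_right (hgeo m) (Nat.cast_nonneg _)
    _ ≤ _ := by
        rw [hxdef]
        have : (0 : ℝ) ≤ ((m : ℝ) / g) ^ 2 * (g.choose m : ℝ) := by positivity
        nlinarith

/-- Measure that decreases under left shifts. -/
def mu {g : ℕ} (𝒰 : Finset (Finset (Fin g))) : ℕ := ∑ E ∈ 𝒰, ∑ e ∈ E, (e : ℕ)

theorem mu_shf_lt {g : ℕ} {i j : Fin g} (hij : i < j) (𝒰 : Finset (Finset (Fin g)))
    {E : Finset (Fin g)} (hE : E ∈ 𝒰) (hm : Mov i j 𝒰 E) :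
    mu (𝒰.image (shf i j 𝒰)) < mu 𝒰 := by
  unfold mu
  rw [sum_image (fun a ha b hb hab => shf_injOn hij.ne 𝒰 ha hb hab)]
  have key : ∀ F ∈ 𝒰, Mov i j 𝒰 F → ∑ e ∈ shf i j 𝒰 F, (e : ℕ) < ∑ e ∈ F, (e : ℕ) := by
    intro F hF hFm
    rw [shf_of_mov hFm, sum_insert (fun h => hFm.2.1 (mem_of_mem_erase h))]
    rw [← add_sum_erase F (fun e : Fin g => (e : ℕ)) hFm.1]
    have : (i : ℕ) < j := hij
    omega
  apply sum_lt_sum
  · intro F hF
    by_cases hFm : Mov i j 𝒰 F
    · exact (key F hF hFm).le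
    · rw [shf_of_not_mov hFm]
  · exact ⟨E, hE, key E hE hm⟩

theorem aux_ratio (G q : ℝ) (hG : 0 ≤ G) (hq : 0 ≤ q) :
    1 - 3 * (q + 2) / (G + 3) ≤ ((G + 1 - q) * (G - q)) / ((G + 2) * (G + 1)) := by
  have h3 : 0 < G + 3 := by linarith
  rw [le_div_iff₀ (by positivity)]
  have : 1 - 3 * (q + 2) / (G + 3) = (G + 3 - 3 * (q + 2)) / (G + 3) := by
    field_simp
  rw [this, div_mul_eq_mul_div, div_le_iff₀ h3]
  nlinarith [mul_nonneg hq hG, mul_nonneg (mul_nonneg hq hG) hG, mul_nonneg hq hq,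
    mul_nonneg hG hG, mul_nonneg (mul_nonneg hq hq) hG]

theorem aux_lin {P C d r : ℝ} (h1 : C ≥ P * (1 - r)) (h2 : d + C ≤ P) : d ≤ r * P := by
  linarith [mul_comm P r]

/-- If an intersecting family has a vertex of large degree, few members avoid that vertex. -/
theorem few_avoid {g m : ℕ} (hg : 100 * m ≤ g) (hm : 2 ≤ m)
    (𝒰 : Finset (Finset (Fin g))) (hsz : ∀ E ∈ 𝒰, #E = m)
    (hint : ∀ E ∈ 𝒰, ∀ F ∈ 𝒰, ∃ x, x ∈ E ∧ x ∈ F) (i : Fin g)
    (hd : 3 * (m : ℝ) / g * ((g - 1).choose (m - 1) : ℝ) < (deg 𝒰 i : ℝ)) :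
    (#(𝒰.filter (fun E => i ∉ E)) : ℝ) ≤ ((m : ℝ) / g) ^ 2 * (g.choose m : ℝ) := by
  classical
  set X : Finset (Fin g) := univ.erase i with hX
  have hXc : #X = g - 1 := by rw [hX, card_erase_of_mem (mem_univ _), card_univ, Fintype.card_fin]
  set 𝒜 : Finset (Finset (Fin g)) := (𝒰.filter (fun E => i ∉ E)).image (fun E => X \ E) with h𝒜
  set ℬ : Finset (Finset (Fin g)) := (𝒰.filter (fun E => i ∈ E)).image (fun E => X \ E) with hℬ
  have hA : #𝒜 = #(𝒰.filter (fun E => i ∉ E)) := by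
    rw [h𝒜]
    apply card_image_of_injOn
    intro E hE F hF hEF
    simp only [coe_filter, Set.mem_ofPred_eq] at hE hF
    have hEX : E ⊆ X := fun x hx => mem_erase.2 ⟨fun h => hE.2 (h ▸ hx), mem_univ _⟩
    have hFX : F ⊆ X := fun x hx => mem_erase.2 ⟨fun h => hF.2 (h ▸ hx), mem_univ _⟩
    simp only at hEF
    rw [← Finset.sdiff_sdiff_eq_self hEX, hEF, Finset.sdiff_sdiff_eq_self hFX]
  have hB : #ℬ = deg 𝒰 i := by
    rw [hℬ]
    unfold deg
    apply card_image_of_injOn
    intro E hE F hF hEF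
    simp only [coe_filter, Set.mem_ofPred_eq] at hE hF
    simp only at hEF
    ext x
    by_cases hxi : x = i
    · subst hxi; simp [hE.2, hF.2]
    · have := congrArg (fun S => x ∈ S) hEF
      simp only [mem_sdiff, hX, mem_erase, ne_eq, hxi, not_false_eq_true, mem_univ, and_self,
        true_and, eq_iff_iff] at this
      tauto
  by_contra hcon
  push Not at hcon
  -- then #𝒜 ≥ choose (g-3) (m-2)
  have hg0 : 0 < g := by omega
  have hge : (g - 3).choose (m - 2) ≤ #𝒜 := by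
    have h1 : (g - 3).choose (m - 2) ≤ (g - 2).choose (m - 2) :=
      Nat.choose_le_choose _ (by omega)
    have h2 := choose_sub_sub_le hg0 (show m ≤ g by omega) 2 hm
    have h3 : ((g - 2).choose (m - 2) : ℝ) < (#𝒜 : ℝ) := by rw [hA]; linarith
    have h4 : (g - 2).choose (m - 2) < #𝒜 := by exact_mod_cast h3
    omega
  have hk := kkx X (T := 2) (s := g - 1 - m) (b := g - m) 𝒜 ℬ
    (by
      intro A hA'
      obtain ⟨E, hE, rfl⟩ := mem_image.1 hA'
      rw [mem_filter] at hE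
      have hEX : E ⊆ X := fun x hx => mem_erase.2 ⟨fun h => hE.2 (h ▸ hx), mem_univ _⟩
      exact ⟨sdiff_subset, by rw [card_sdiff_of_subset hEX, hsz E hE.1, hXc]⟩)
    (by
      intro A hA'
      obtain ⟨E, hE, rfl⟩ := mem_image.1 hA'
      rw [mem_filter] at hE
      refine ⟨sdiff_subset, ?_⟩
      have : X \ E = univ \ E := by
        ext x
        simp only [hX, mem_sdiff, mem_erase, ne_eq, mem_univ, and_true, true_and]
        constructor
        · exact fun h => h.2
        · exact fun h => ⟨fun h' => h (h' ▸ hE.2), h⟩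
      rw [this, card_sdiff_of_subset (subset_univ _), hsz E hE.1, card_univ, Fintype.card_fin])
    (by
      intro A hA' B hB' hAB
      obtain ⟨E, hE, rfl⟩ := mem_image.1 hA'
      obtain ⟨F, hF, rfl⟩ := mem_image.1 hB'
      rw [mem_filter] at hE hF
      obtain ⟨x, hx1, hx2⟩ := hint E hE.1 F hF.1
      have hxX : x ∈ X := mem_erase.2 ⟨fun h => hE.2 (h ▸ hx1), mem_univ _⟩
      rw [← hAB] at hxX
      rcases mem_union.1 hxX with h | h
      · exact (mem_sdiff.1 h).2 hx1
      · exact (mem_sdiff.1 h).2 hx2)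
    (by rw [hXc]; omega) (by rw [hXc]; omega) (by rw [hXc]; omega)
    (by
      rw [hXc]
      have e1 : g - 1 - 2 = g - 3 := by omega
      have e2 : (g - 3).choose (g - 1 - m) = (g - 3).choose (m - 2) := by
        rw [← Nat.choose_symm (show m - 2 ≤ g - 3 by omega)]
        congr 1
        omega
      rw [e1, e2]
      exact hge)
  rw [hXc, hB] at hk
  have e1 : g - 1 - 2 = g - 3 := by omega
  have e2 : g - 1 - (g - m) = m - 1 := by omega
  have e3 : (g - 1).choose (g - m) = (g - 1).choose (m - 1) := by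
    rw [← Nat.choose_symm (show m - 1 ≤ g - 1 by omega)]
    congr 1
    omega
  rw [e1, e2, e3] at hk
  -- choose (g-3) (m-1) ≥ (1 - m/g)^2 choose (g-1) (m-1)
  obtain ⟨G, hG⟩ : ∃ G, g = G + 3 := ⟨g - 3, by omega⟩
  obtain ⟨q, hq⟩ : ∃ q, m = q + 2 := ⟨m - 2, by omega⟩
  have f1 : (G + 2) * (G + 1).choose (q + 1) = (G + 2).choose (q + 1) * (G + 1 - q) := by
    have := Nat.choose_mul_succ_eq (G + 1) (q + 1)
    have h2 : G + 1 + 1 - (q + 1) = G + 1 - q := by omega
    rw [h2] at this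
    rw [mul_comm]
    exact this
  have f2 : (G + 1) * G.choose (q + 1) = (G + 1).choose (q + 1) * (G - q) := by
    have := Nat.choose_mul_succ_eq G (q + 1)
    have h2 : G + 1 - (q + 1) = G - q := by omega
    rw [h2] at this
    rw [mul_comm]
    exact this
  have hGq : q + 1 ≤ G := by omega
  have f1' : ((G : ℝ) + 2) * ((G + 1).choose (q + 1) : ℝ)
      = ((G + 2).choose (q + 1) : ℝ) * ((G : ℝ) + 1 - q) := by
    have := congrArg (Nat.cast : ℕ → ℝ) f1
    push_cast [Nat.cast_sub (show q ≤ G + 1 by omega)] at this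
    linarith
  have f2' : ((G : ℝ) + 1) * (G.choose (q + 1) : ℝ)
      = ((G + 1).choose (q + 1) : ℝ) * ((G : ℝ) - q) := by
    have := congrArg (Nat.cast : ℕ → ℝ) f2
    push_cast [Nat.cast_sub (show q ≤ G by omega)] at this
    linarith
  subst hG hq
  simp only [Nat.add_sub_cancel] at hk
  have e4 : G + 3 - 1 = G + 2 := by omega
  have e5 : q + 2 - 1 = q + 1 := by omega
  rw [e4, e5] at hk hd
  have hkR : (deg 𝒰 i : ℝ) + (G.choose (q + 1) : ℝ) ≤ ((G + 2).choose (q + 1) : ℝ) := by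
    exact_mod_cast hk
  push_cast at hd
  have hP : (0 : ℝ) < ((G + 2).choose (q + 1) : ℝ) := by
    exact_mod_cast Nat.choose_pos (by omega)
  have hGR : (0 : ℝ) ≤ G := Nat.cast_nonneg _
  have hqR : (0 : ℝ) ≤ q := Nat.cast_nonneg _
  have hgR : 100 * ((q : ℝ) + 2) ≤ (G : ℝ) + 3 := by exact_mod_cast hg
  -- G.choose (q+1) = P * (G+1-q)(G-q)/((G+2)(G+1))
  have f3 : (G.choose (q + 1) : ℝ) = ((G + 2).choose (q + 1) : ℝ) *
      (((G : ℝ) + 1 - q) * ((G : ℝ) - q)) / (((G : ℝ) + 2) * ((G : ℝ) + 1)) := by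
    rw [eq_div_iff (by positivity)]
    calc (G.choose (q + 1) : ℝ) * (((G : ℝ) + 2) * ((G : ℝ) + 1))
        = (((G : ℝ) + 1) * (G.choose (q + 1) : ℝ)) * ((G : ℝ) + 2) := by ring
      _ = (((G + 1).choose (q + 1) : ℝ) * ((G : ℝ) - q)) * ((G : ℝ) + 2) := by rw [f2']
      _ = (((G : ℝ) + 2) * ((G + 1).choose (q + 1) : ℝ)) * ((G : ℝ) - q) := by ring
      _ = (((G + 2).choose (q + 1) : ℝ) * ((G : ℝ) + 1 - q)) * ((G : ℝ) - q) := by rw [f1']
      _ = _ := by ring
  have f4 : (1 : ℝ) - 3 * ((q : ℝ) + 2) / ((G : ℝ) + 3) ≤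
      (((G : ℝ) + 1 - q) * ((G : ℝ) - q)) / (((G : ℝ) + 2) * ((G : ℝ) + 1)) := by
    exact aux_ratio G q hGR hqR
  have f5 : (G.choose (q + 1) : ℝ) ≥ ((G + 2).choose (q + 1) : ℝ) *
      (1 - 3 * ((q : ℝ) + 2) / ((G : ℝ) + 3)) := by
    rw [f3, mul_div_assoc]
    exact mul_le_mul_of_nonneg_left f4 hP.le
  exact absurd (aux_lin f5 hkR) (not_le.2 hd)

/-- **Lemma B**: an intersecting family of `m`-sets with all degrees at most
`D * choose (g-1) (m-1)` is small. -/
theorem lemmaB {g m : ℕ} (hg : 100 * m ≤ g) (D : ℝ) (hD : 3 * (m : ℝ) / g ≤ D)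
    (𝒰 : Finset (Finset (Fin g))) (hsz : ∀ E ∈ 𝒰, #E = m)
    (hint : ∀ E ∈ 𝒰, ∀ F ∈ 𝒰, ∃ x, x ∈ E ∧ x ∈ F)
    (hdeg : ∀ x, (deg 𝒰 x : ℝ) ≤ D * ((g - 1).choose (m - 1) : ℝ)) :
    (#𝒰 : ℝ) ≤ (2 * D * ((m : ℝ) / g) + 30 * ((m : ℝ) / g) ^ 2) * (g.choose m : ℝ) := by
  induction hN : mu 𝒰 using Nat.strong_induction_on generalizing 𝒰 with
  | _ N ih =>
  have hD0 : 0 ≤ D := le_trans (by positivity) hD
  rcases 𝒰.eq_empty_or_nonempty with rfl | hne
  · simp; positivity
  obtain ⟨E₀, hE₀⟩ := hne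
  have hm : 1 ≤ m := by
    obtain ⟨x, hx, _⟩ := hint E₀ hE₀ E₀ hE₀
    rw [← hsz E₀ hE₀]
    exact card_pos.2 ⟨x, hx⟩
  have hg0 : 0 < g := by omega
  have hg0' : (0 : ℝ) < g := by exact_mod_cast hg0
  have hsplit : ∀ (𝒱 : Finset (Finset (Fin g))) (x : Fin g),
      (#𝒱 : ℝ) = (deg 𝒱 x : ℝ) + (#(𝒱.filter (fun E => x ∉ E)) : ℝ) := by
    intro 𝒱 x
    unfold deg
    have := card_filter_add_card_filter_not (s := 𝒱) (fun E => x ∈ E)
    exact_mod_cast this.symm
  have hc1 : ((g - 1).choose (m - 1) : ℝ) ≤ (m : ℝ) / g * (g.choose m : ℝ) := by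
    have := choose_sub_sub_le hg0 (show m ≤ g by omega) 1 hm
    simpa using this
  by_cases hmov : ∃ E ∈ 𝒰, ∃ i j : Fin g, i < j ∧ Mov i j 𝒰 E
  · obtain ⟨E, hE, i, j, hij, hEm⟩ := hmov
    set 𝒱 := 𝒰.image (shf i j 𝒰) with h𝒱
    have hcard : #𝒱 = #𝒰 := card_image_of_injOn (shf_injOn hij.ne 𝒰)
    have hszV : ∀ E ∈ 𝒱, #E = m := by
      intro F hF
      obtain ⟨F', hF', rfl⟩ := mem_image.1 hF
      rw [card_shf]; exact hsz F' hF'
    have hintV := shf_intersecting hij.ne 𝒰 hint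
    rw [← h𝒱] at hintV
    by_cases hdV : ∀ x, (deg 𝒱 x : ℝ) ≤ D * ((g - 1).choose (m - 1) : ℝ)
    · have := ih (mu 𝒱) (by rw [← hN]; exact mu_shf_lt hij 𝒰 hE hEm) 𝒱 hszV hintV hdV rfl
      rw [hcard] at this
      exact this
    · push Not at hdV
      obtain ⟨x, hx⟩ := hdV
      have hxi : x = i := by
        by_contra hxi
        have h1 : (deg 𝒱 x : ℝ) ≤ deg 𝒰 x := by exact_mod_cast deg_shf_le_of_ne hij.ne 𝒰 hxi
        linarith [hdeg x]
      subst hxi
      rcases Nat.lt_or_ge m 2 with hm2 | hm2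
      · -- m = 1
        have hm1 : m = 1 := by omega
        subst hm1
        exfalso
        have h1 : (deg 𝒱 x : ℝ) ≤ deg 𝒰 x + deg 𝒰 j := by
          exact_mod_cast deg_shf_self_le hij.ne 𝒰
        -- all members of 𝒰 equal E
        have hE1 : E = {j} := by
          have := hsz E hE
          rw [card_eq_one] at this
          obtain ⟨a, ha⟩ := this
          have hj := hEm.1
          rw [ha, mem_singleton] at hj
          rw [ha, hj]
        have h2 : deg 𝒰 x = 0 := by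
          unfold deg
          rw [card_eq_zero, filter_eq_empty_iff]
          intro F hF hxF
          obtain ⟨y, hy1, hy2⟩ := hint E hE F hF
          rw [hE1, mem_singleton] at hy1
          subst hy1
          have h3 := hsz F hF
          have h4 : #({x, y} : Finset (Fin g)) ≤ #F := by
            apply card_le_card
            intro z hz
            rw [mem_insert, mem_singleton] at hz
            rcases hz with rfl | rfl
            · exact hxF
            · exact hy2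
          rw [card_pair hij.ne, h3] at h4
          omega
        rw [h2] at h1
        have := hdeg j
        push_cast at h1
        linarith
      · have h1 : (deg 𝒱 x : ℝ) ≤ deg 𝒰 x + deg 𝒰 j := by
          exact_mod_cast deg_shf_self_le hij.ne 𝒰
        have h2 := few_avoid hg hm2 𝒱 hszV hintV x (by
          refine lt_of_le_of_lt ?_ hx
          apply mul_le_mul_of_nonneg_right hD (Nat.cast_nonneg _))
        have h3 := hsplit 𝒱 x
        have h4 := hdeg x
        have h5 := hdeg j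
        rw [hcard] at h3
        have h6 : D * ((g - 1).choose (m - 1) : ℝ) ≤ D * ((m : ℝ) / g * (g.choose m : ℝ)) :=
          mul_le_mul_of_nonneg_left hc1 hD0
        have h7 : (0 : ℝ) ≤ ((m : ℝ) / g) ^ 2 * (g.choose m : ℝ) := by positivity
        calc (#𝒰 : ℝ) = (deg 𝒱 x : ℝ) + _ := h3
          _ ≤ 2 * (D * ((m : ℝ) / g * (g.choose m : ℝ))) + ((m : ℝ) / g) ^ 2 * (g.choose m : ℝ) := by
              linarith
          _ ≤ _ := by nlinarith
  · push Not at hmov
    have hs : Shifted 𝒰 := by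
      intro E hE i j hij hj hi
      by_contra h
      exact hmov E hE i j hij ⟨hj, hi, h⟩
    have h1 := shifted_bound hg hm 𝒰 hsz hint hs ⟨0, hg0⟩ rfl
    have h3 := hsplit 𝒰 ⟨0, hg0⟩
    have h4 := hdeg ⟨0, hg0⟩
    have h6 : D * ((g - 1).choose (m - 1) : ℝ) ≤ D * ((m : ℝ) / g * (g.choose m : ℝ)) :=
      mul_le_mul_of_nonneg_left hc1 hD0
    have h7 : (0 : ℝ) ≤ ((m : ℝ) / g) ^ 2 * (g.choose m : ℝ) := by positivity
    have h8 : (0 : ℝ) ≤ D * ((m : ℝ) / g * (g.choose m : ℝ)) := by positivity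
    calc (#𝒰 : ℝ) = _ := h3
      _ ≤ D * ((m : ℝ) / g * (g.choose m : ℝ)) + 17 * ((m : ℝ) / g) ^ 2 * (g.choose m : ℝ) := by
          linarith
      _ ≤ _ := by nlinarith

/-- Lemma B on an arbitrary ground set. -/
theorem lemmaB_set {α : Type*} [DecidableEq α] (X : Finset α) {m : ℕ} (hg : 100 * m ≤ #X)
    (D : ℝ) (hD : 3 * (m : ℝ) / (#X : ℝ) ≤ D)
    (𝒰 : Finset (Finset α)) (hsz : ∀ E ∈ 𝒰, E ⊆ X ∧ #E = m)
    (hint : ∀ E ∈ 𝒰, ∀ F ∈ 𝒰, ∃ x, x ∈ E ∧ x ∈ F)
    (hdeg : ∀ x ∈ X, (deg 𝒰 x : ℝ) ≤ D * ((#X - 1).choose (m - 1) : ℝ)) :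
    (#𝒰 : ℝ) ≤ (2 * D * ((m : ℝ) / (#X : ℝ)) + 30 * ((m : ℝ) / (#X : ℝ)) ^ 2)
      * ((#X).choose m : ℝ) := by
  classical
  let f : Fin #X ↪ α := X.equivFin.symm.toEmbedding.trans (Function.Embedding.subtype _)
  have hf : (univ : Finset (Fin #X)).map f = X := by
    ext x
    simp only [f, mem_map, mem_univ, true_and, Function.Embedding.trans_apply,
      Equiv.coe_toEmbedding, Function.Embedding.subtype_apply]
    constructor
    · rintro ⟨i, rfl⟩
      exact (X.equivFin.symm i).2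
    · intro hx
      exact ⟨X.equivFin ⟨x, hx⟩, by simp⟩
  have key : ∀ (𝒞 : Finset (Finset α)), (∀ A ∈ 𝒞, A ⊆ X) →
      #(univ.filter (fun S : Finset (Fin #X) => S.map f ∈ 𝒞)) = #𝒞 := by
    intro 𝒞 h𝒞
    rw [← card_map ⟨fun S : Finset (Fin #X) => S.map f, Finset.map_injective f⟩]
    congr 1
    ext A
    simp only [mem_map, mem_filter, mem_univ, true_and, Function.Embedding.coeFn_mk]
    constructor
    · rintro ⟨S, hS, rfl⟩; exact hS
    · intro hA'
      have hAX := h𝒞 A hA'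
      rw [← hf] at hAX
      obtain ⟨S, _, rfl⟩ := Finset.subset_map_iff.1 hAX
      exact ⟨S, hA', rfl⟩
  have := lemmaB hg D hD (univ.filter (fun S : Finset (Fin #X) => S.map f ∈ 𝒰))
    (by
      intro A hA'
      rw [mem_filter] at hA'
      rw [← card_map f]; exact (hsz _ hA'.2).2)
    (by
      intro A hA' B hB'
      rw [mem_filter] at hA' hB'
      obtain ⟨x, hx1, hx2⟩ := hint _ hA'.2 _ hB'.2
      obtain ⟨y, hy, rfl⟩ := mem_map.1 hx1
      refine ⟨y, hy, ?_⟩
      exact (mem_map' f).1 hx2)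
    (by
      intro x
      have hfx : f x ∈ X := (X.equivFin.symm x).2
      refine le_trans ?_ (hdeg (f x) hfx)
      unfold deg
      rw [← key (𝒰.filter (fun E => f x ∈ E)) (fun A hA => (hsz A (mem_filter.1 hA).1).1)]
      apply le_of_eq
      congr 2
      ext S
      simp only [mem_filter, mem_univ, true_and, mem_map']
      )
  rwa [key 𝒰 (fun A h => (hsz A h).1)] at this

/-- Lemma B in complementary form: `l`-subsets of `C`, no two with union `C`. -/
theorem lemmaB_union {α : Type*} [DecidableEq α] (C : Finset α) {l : ℕ} (hl : l + 1 ≤ #C)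
    (hg : 100 * (#C - l) ≤ #C) (D : ℝ) (hD : 3 * ((#C - l : ℕ) : ℝ) / (#C : ℝ) ≤ D)
    (ℬ : Finset (Finset α)) (hsz : ∀ B ∈ ℬ, B ⊆ C ∧ #B = l)
    (hU : ∀ B ∈ ℬ, ∀ B' ∈ ℬ, B ∪ B' ≠ C)
    (hdeg : ∀ x ∈ C, (#(ℬ.filter (fun B => x ∉ B)) : ℝ) ≤ D * ((#C - 1).choose l : ℝ)) :
    (#ℬ : ℝ) ≤ (2 * D * (((#C - l : ℕ) : ℝ) / (#C : ℝ))
      + 30 * (((#C - l : ℕ) : ℝ) / (#C : ℝ)) ^ 2) * ((#C).choose l : ℝ) := by
  classical
  have hinj : Set.InjOn (fun B => C \ B) (ℬ : Set (Finset α)) := by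
    intro A hA B hB hAB
    simp only at hAB
    rw [← Finset.sdiff_sdiff_eq_self (hsz A hA).1, hAB, Finset.sdiff_sdiff_eq_self (hsz B hB).1]
  have := lemmaB_set C hg D hD (ℬ.image (fun B => C \ B))
    (by
      intro E hE
      obtain ⟨B, hB, rfl⟩ := mem_image.1 hE
      exact ⟨sdiff_subset, by rw [card_sdiff_of_subset (hsz B hB).1, (hsz B hB).2]⟩)
    (by
      intro E hE F hF
      obtain ⟨B, hB, rfl⟩ := mem_image.1 hE
      obtain ⟨B', hB', rfl⟩ := mem_image.1 hF
      by_contra hcon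
      push Not at hcon
      apply hU B hB B' hB'
      apply Subset.antisymm (union_subset (hsz B hB).1 (hsz B' hB').1)
      intro x hx
      by_contra hxn
      rw [mem_union, not_or] at hxn
      exact hcon x (mem_sdiff.2 ⟨hx, hxn.1⟩) (mem_sdiff.2 ⟨hx, hxn.2⟩))
    (by
      intro x hx
      unfold deg
      rw [filter_image, card_image_of_injOn (hinj.mono (by
        intro B hB
        exact (mem_filter.1 (mem_coe.1 hB)).1))]
      have e : ℬ.filter (fun B => x ∈ C \ B) = ℬ.filter (fun B => x ∉ B) := by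
        apply filter_congr
        intro B _
        rw [mem_sdiff]
        exact ⟨fun h => h.2, fun h => ⟨hx, h⟩⟩
      rw [e]
      refine (hdeg x hx).trans (le_of_eq ?_)
      congr 2
      rw [← Nat.choose_symm (show #C - l - 1 ≤ #C - 1 by omega)]
      congr 1
      omega)
  rw [card_image_of_injOn hinj, Nat.choose_symm (show l ≤ #C by omega)] at this
  exact this

end Pool.Agent.Helper92.Kle
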